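import Mathlib
import Pool.Agent.Lib.MP_f7f952_pr.Defs
import Pool.Agent.Lib.MP_f7f952_pr.Unique

/-!
# MP_f7f952_pr, Q1: the critical sparsity for the Wendel formula

For every symmetric probability law `μ` on `ℝ` other than the point mass at `0`, the sequence
`log d / (P(ξ ≠ 0) * d)` is a critical sparsity, and it is the only one (up to a factor
`1 + o(1)`) in the strong sense.  No further hypothesis is used.
-/

open MeasureTheory Filter Topology
open Pool.Agent.Lib.MP_f7f952_pr

namespace Pool.Agent.Results.MP_f7f952_pr.CriticalSparsity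

theorem result (μ : Measure ℝ) [IsProbabilityMeasure μ] (hsymm : μ.map (fun x => -x) = μ)
    (hne : μ {0}ᶜ ≠ 0) :
    IsCriticalSparsity μ (fun d : ℕ => Real.log d / (μ.real {0}ᶜ * d)) ∧
    IsStrongCriticalSparsity μ (fun d : ℕ => Real.log d / (μ.real {0}ᶜ * d)) ∧
    ∀ q : ℕ → ℝ, IsStrongCriticalSparsity μ q →
      Tendsto (fun d : ℕ => q d / (Real.log d / (μ.real {0}ᶜ * d))) atTop (𝓝 1) :=
  ⟨critical_of_strong (strongCritical μ hsymm hne), strongCritical μ hsymm hne,
    fun _ hq => strongCritical_unique μ hsymm hne hq⟩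

end Pool.Agent.Results.MP_f7f952_pr.CriticalSparsity
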